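import Mathlib
import Pool.Agent.H933.LL.Stm3

/-!
# Harnack's inequality for zero-free holomorphic functions
-/

set_option autoImplicit false

open Metric Filter Topology
open scoped Real ComplexConjugate

namespace Pool.Agent.H591.LL

open Pool.Agent.H933.LL

/-- a holomorphic logarithm on a disc -/
theorem exists_log (f : ℂ → ℂ) (c : ℂ) (R : ℝ) (hR : 0 < R)
    (hf : DifferentiableOn ℂ f (ball c R)) (h0 : ∀ z ∈ ball c R, f z ≠ 0) :
    ∃ g : ℂ → ℂ, DifferentiableOn ℂ g (ball c R) ∧ ∀ z ∈ ball c R, f z = Complex.exp (g z) := by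
  have hc : c ∈ ball c R := mem_ball_self hR
  have hfd : DifferentiableOn ℂ (deriv f) (ball c R) := hf.deriv isOpen_ball
  have hq : DifferentiableOn ℂ (fun z => deriv f z / f z) (ball c R) := hfd.div hf h0
  obtain ⟨g, hgc, hg⟩ := hq.isExactOn_ball.with_val_at c (Complex.log (f c))
  refine ⟨g, fun z hz => (hg z hz).differentiableAt.differentiableWithinAt, ?_⟩
  have hder : ∀ z ∈ ball c R, HasDerivAt (fun z => f z * Complex.exp (-g z)) 0 z := by
    intro z hz
    have h1 : HasDerivAt f (deriv f z) z :=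
      (hf.differentiableAt (isOpen_ball.mem_nhds hz)).hasDerivAt
    have h2 := h1.mul ((hg z hz).neg.cexp)
    refine h2.congr_deriv ?_
    have := h0 z hz
    field_simp
    ring
  intro z hz
  have hconst := isOpen_ball.is_const_of_deriv_eq_zero (isPreconnected_ball (x := c) (r := R))
    (fun y hy => (hder y hy).differentiableAt.differentiableWithinAt)
    (fun y hy => (hder y hy).deriv) hz hc
  rw [hgc, Complex.exp_neg (Complex.log (f c)), Complex.exp_log (h0 c hc),
    mul_inv_cancel₀ (h0 c hc), Complex.exp_neg] at hconst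
  have h3 := Complex.exp_ne_zero (g z)
  field_simp at hconst
  exact hconst

/-- the Cayley transform -/
theorem cayley_le (h a : ℂ) (hh : 0 ≤ h.re) (ha : 0 < a.re) :
    ‖(h - a) / (h + conj a)‖ ≤ 1 := by
  have hne : h + conj a ≠ 0 := by
    intro h0
    have := congrArg Complex.re h0
    simp at this
    linarith
  rw [norm_div, div_le_one (norm_pos_iff.2 hne)]
  apply le_of_sq_le_sq _ (norm_nonneg _)
  rw [← Complex.normSq_eq_norm_sq, ← Complex.normSq_eq_norm_sq, Complex.normSq_apply,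
    Complex.normSq_apply]
  simp only [Complex.sub_re, Complex.sub_im, Complex.add_re, Complex.add_im, Complex.conj_re,
    Complex.conj_im]
  nlinarith [mul_nonneg hh ha.le]

theorem cayley_half (h a : ℂ) (hh : 0 ≤ h.re) (ha : 0 < a.re)
    (hle : ‖(h - a) / (h + conj a)‖ ≤ 1 / 2) : h.re ≤ 3 * a.re := by
  have hne : h + conj a ≠ 0 := by
    intro h0
    have := congrArg Complex.re h0
    simp at this
    linarith
  rw [norm_div, div_le_iff₀ (norm_pos_iff.2 hne)] at hle
  have h1 : ‖h - a‖ ^ 2 ≤ (1 / 2 * ‖h + conj a‖) ^ 2 := by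
    gcongr
  rw [mul_pow, ← Complex.normSq_eq_norm_sq, ← Complex.normSq_eq_norm_sq, Complex.normSq_apply,
    Complex.normSq_apply] at h1
  simp only [Complex.sub_re, Complex.sub_im, Complex.add_re, Complex.add_im, Complex.conj_re,
    Complex.conj_im] at h1
  by_contra hcon
  push Not at hcon
  nlinarith [sq_nonneg (h.im - a.im)]

theorem harn_aux (f : ℂ → ℂ) (c w : ℂ) (R M : ℝ) (hR : 0 < R)
    (hf : DifferentiableOn ℂ f (ball c R)) (h0 : ∀ z ∈ ball c R, f z ≠ 0)
    (hM : ∀ z ∈ ball c R, ‖f z‖ < M) (hw : ‖w - c‖ ≤ R / 2) :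
    ‖f c‖ ^ 3 / M ^ 2 ≤ ‖f w‖ := by
  have hc : c ∈ ball c R := mem_ball_self hR
  have hwb : w ∈ ball c R := by
    rw [mem_ball, dist_eq_norm]
    linarith
  obtain ⟨g, hg, hexp⟩ := exists_log f c R hR hf h0
  have hM0 : 0 < M := (norm_nonneg _).trans_lt (hM c hc)
  have hn : ∀ z ∈ ball c R, ‖f z‖ = Real.exp (g z).re := by
    intro z hz
    rw [hexp z hz, Complex.norm_exp]
  have hpos : ∀ z ∈ ball c R, 0 < ((Real.log M : ℂ) - g z).re := by
    intro z hz
    rw [Complex.sub_re, Complex.ofReal_re]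
    have h1 := hM z hz
    rw [hn z hz] at h1
    have h2 := (Real.lt_log_iff_exp_lt hM0).2 h1
    linarith
  obtain ⟨φ, hφ⟩ : ∃ φ : ℂ → ℂ, φ = fun z => (((Real.log M : ℂ) - g z) -
      ((Real.log M : ℂ) - g c)) / (((Real.log M : ℂ) - g z) + conj ((Real.log M : ℂ) - g c)) :=
    ⟨_, rfl⟩
  have hden : ∀ z ∈ ball c R,
      ((Real.log M : ℂ) - g z) + conj ((Real.log M : ℂ) - g c) ≠ 0 := by
    intro z hz h3
    have h4 := congrArg Complex.re h3
    rw [Complex.add_re, Complex.conj_re, Complex.zero_re] at h4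
    have h5 := hpos z hz
    have h6 := hpos c hc
    linarith
  have hφd : DifferentiableOn ℂ φ (ball c R) := by
    rw [hφ]
    refine DifferentiableOn.div ?_ ?_ hden
    · exact ((differentiableOn_const _).sub hg).sub (differentiableOn_const _)
    · exact ((differentiableOn_const _).sub hg).add (differentiableOn_const _)
  have hφc : φ c = 0 := by
    rw [hφ]
    simp
  have hmaps : Set.MapsTo φ (ball c R) (closedBall (φ c) 1) := by
    intro z hz
    rw [hφc, mem_closedBall, dist_zero_right, hφ]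
    exact cayley_le _ _ (hpos z hz).le (hpos c hc)
  have h7 := Complex.dist_le_div_mul_dist_of_mapsTo_ball hφd hmaps hwb
  rw [hφc, dist_zero_right, dist_eq_norm] at h7
  have h8 : ‖φ w‖ ≤ 1 / 2 := by
    refine h7.trans ?_
    rw [div_mul_eq_mul_div, one_mul, div_le_iff₀ hR]
    linarith
  rw [hφ] at h8
  have h9 := cayley_half _ _ (hpos w hwb).le (hpos c hc) h8
  rw [Complex.sub_re, Complex.sub_re, Complex.ofReal_re] at h9
  rw [hn w hwb, hn c hc, ← Real.exp_log hM0, ← Real.exp_nat_mul, ← Real.exp_nat_mul,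
    ← Real.exp_sub, Real.exp_le_exp]
  push_cast
  linarith

/-- **P_harn** -/
theorem p_harn : P_harn := by
  intro f c w R M hR hf h0 hM hw
  have hc : c ∈ ball c R := mem_ball_self hR
  have hM0 : 0 < M := (norm_pos_iff.2 (h0 c hc)).trans_le (hM c hc)
  have h1 : ∀ ε : ℝ, 0 < ε → ‖f c‖ ^ 3 ≤ ‖f w‖ * (M + ε) ^ 2 := by
    intro ε hε
    have h2 := harn_aux f c w R (M + ε) hR hf h0
      (fun z hz => (hM z hz).trans_lt (by linarith)) hw
    rwa [div_le_iff₀ (by positivity)] at h2
  rw [div_le_iff₀ (by positivity)]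
  have hlim : Tendsto (fun ε : ℝ => ‖f w‖ * (M + ε) ^ 2) (𝓝[>] 0) (𝓝 (‖f w‖ * (M + 0) ^ 2)) := by
    apply Tendsto.mono_left _ nhdsWithin_le_nhds
    have : Continuous fun ε : ℝ => ‖f w‖ * (M + ε) ^ 2 := by fun_prop
    exact this.tendsto 0
  rw [add_zero] at hlim
  refine ge_of_tendsto hlim ?_
  filter_upwards [self_mem_nhdsWithin] with ε hε
  exact h1 ε hε

end Pool.Agent.H591.LL
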